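import Mathlib

set_option linter.all false

namespace Pool.Agent.V11199.TH

open Finset

/-- Expectation of `f` under the weights `μ` on 0-1 configurations on `V`. -/
def ex {V : Type} [Fintype V] [DecidableEq V] (μ : (V → Bool) → ℝ) (f : (V → Bool) → ℝ) : ℝ :=
  ∑ ω, μ ω * f ω

/-- `μ` is a probability distribution of a 0-1 family indexed by `V`, each entry is 1 with
probability `p`, and `D` is a dependency graph. -/
structure IsDist {V : Type} [Fintype V] [DecidableEq V] (D : SimpleGraph V) (p : ℝ)
    (μ : (V → Bool) → ℝ) : Prop where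
  nonneg : ∀ ω, 0 ≤ μ ω
  total : ∑ ω, μ ω = 1
  marg : ∀ v, ex μ (fun ω => if ω v = true then 1 else 0) = p
  indep : ∀ A B : Set V, Disjoint A B → (∀ a ∈ A, ∀ b ∈ B, ¬ D.Adj a b) →
    ∀ f g : (V → Bool) → ℝ, DependsOn f A → DependsOn g B →
      ex μ (fun ω => f ω * g ω) = ex μ f * ex μ g

section product

variable {I : Type} [Fintype I] [DecidableEq I] {α : Type} [Fintype α] [DecidableEq α]

/-- product weight -/
def pw (w : I → α → ℝ) (x : I → α) : ℝ := ∏ i, w i (x i)

theorem pw_sum_prod (w g : I → α → ℝ) :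
    ∑ x : I → α, pw w x * ∏ i, g i (x i) = ∏ i, ∑ a, w i a * g i a := by
  rw [Finset.prod_univ_sum]
  simp only [Fintype.piFinset_univ, pw]
  refine Finset.sum_congr rfl (fun x _ => ?_)
  rw [Finset.prod_mul_distrib]

theorem pw_total (w : I → α → ℝ) (hw : ∀ i, ∑ a, w i a = 1) : ∑ x : I → α, pw w x = 1 := by
  have := pw_sum_prod w (fun _ _ => 1)
  simp only [Finset.prod_const_one, mul_one, hw] at this
  exact this

open Classical in
/-- swap the coordinates in `A` -/
noncomputable def sw (A : Set I) (z : (I → α) × (I → α)) : (I → α) × (I → α) :=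
  (fun i => if i ∈ A then z.2 i else z.1 i, fun i => if i ∈ A then z.1 i else z.2 i)

theorem sw_sw (A : Set I) (z : (I → α) × (I → α)) : sw A (sw A z) = z := by
  unfold sw
  ext i
  · by_cases h : i ∈ A <;> simp [h]
  · by_cases h : i ∈ A <;> simp [h]

theorem pw_sw (w : I → α → ℝ) (A : Set I) (z : (I → α) × (I → α)) :
    pw w (sw A z).1 * pw w (sw A z).2 = pw w z.1 * pw w z.2 := by
  unfold pw
  rw [← Finset.prod_mul_distrib, ← Finset.prod_mul_distrib]
  refine Finset.prod_congr rfl (fun i _ => ?_)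
  unfold sw
  by_cases h : i ∈ A
  · simp only [h, if_true]; ring
  · simp only [h, if_false]

theorem pw_indep (w : I → α → ℝ) (hw : ∀ i, ∑ a, w i a = 1) (A B : Set I) (hAB : Disjoint A B)
    (f g : (I → α) → ℝ) (hf : DependsOn f A) (hg : DependsOn g B) :
    ∑ x, pw w x * (f x * g x) = (∑ x, pw w x * f x) * (∑ x, pw w x * g x) := by
  have h1 : (∑ x, pw w x * f x) * (∑ x, pw w x * g x)
      = ∑ z : (I → α) × (I → α), (pw w z.1 * pw w z.2) * (f z.1 * g z.2) := by
    rw [Fintype.sum_prod_type, Finset.sum_mul_sum]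
    refine Finset.sum_congr rfl (fun x _ => Finset.sum_congr rfl (fun y _ => ?_))
    ring
  have h2 : ∑ z : (I → α) × (I → α), (pw w z.1 * pw w z.2) * (f z.1 * g z.2)
      = ∑ z : (I → α) × (I → α), (pw w z.1 * pw w z.2) * (f z.2 * g z.2) := by
    refine Finset.sum_nbij' (sw A) (sw A) (fun _ _ => mem_univ _) (fun _ _ => mem_univ _)
      (fun z _ => sw_sw A z) (fun z _ => sw_sw A z) (fun z _ => ?_)
    rw [pw_sw]
    have e1 : f (sw A z).2 = f z.1 := by
      apply hf
      intro i hi
      simp [sw, hi]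
    have e2 : g (sw A z).2 = g z.2 := by
      apply hg
      intro i hi
      have : i ∉ A := fun h => Set.disjoint_left.1 hAB h hi
      simp [sw, this]
    rw [e1, e2]
  rw [h1, h2, Fintype.sum_prod_type]
  have h3 : ∀ x : I → α, ∑ y, pw w x * pw w y * (f y * g y)
      = pw w x * ∑ y, pw w y * (f y * g y) := by
    intro x
    rw [Finset.mul_sum]
    exact Finset.sum_congr rfl (fun y _ => by ring)
  simp only [h3]
  rw [← Finset.sum_mul, pw_total w hw, one_mul]

end product

section ops

variable {V : Type} [Fintype V] [DecidableEq V]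

theorem ex_mono {μ : (V → Bool) → ℝ} (h : ∀ ω, 0 ≤ μ ω) {f g : (V → Bool) → ℝ}
    (hfg : ∀ ω, f ω ≤ g ω) : ex μ f ≤ ex μ g :=
  Finset.sum_le_sum (fun ω _ => mul_le_mul_of_nonneg_left (hfg ω) (h ω))

theorem ex_one {D : SimpleGraph V} {p : ℝ} {μ : (V → Bool) → ℝ} (h : IsDist D p μ) :
    ex μ (fun _ => 1) = 1 := by
  unfold ex; simp [h.total]

theorem ex_add (μ : (V → Bool) → ℝ) (f g : (V → Bool) → ℝ) :
    ex μ (fun ω => f ω + g ω) = ex μ f + ex μ g := by
  unfold ex; rw [← Finset.sum_add_distrib]; exact Finset.sum_congr rfl (fun _ _ => by ring)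

theorem ex_sub (μ : (V → Bool) → ℝ) (f g : (V → Bool) → ℝ) :
    ex μ (fun ω => f ω - g ω) = ex μ f - ex μ g := by
  unfold ex; rw [← Finset.sum_sub_distrib]; exact Finset.sum_congr rfl (fun _ _ => by ring)

theorem ex_smul (μ : (V → Bool) → ℝ) (c : ℝ) (f : (V → Bool) → ℝ) :
    ex μ (fun ω => c * f ω) = c * ex μ f := by
  unfold ex; rw [Finset.mul_sum]; exact Finset.sum_congr rfl (fun _ _ => by ring)

/-- law of a configuration valued random variable -/
def law {Ω : Type} [Fintype Ω] (ρ : Ω → ℝ) (Y : Ω → (V → Bool)) (ω : V → Bool) : ℝ :=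
  ∑ x, if Y x = ω then ρ x else 0

theorem ex_law {Ω : Type} [Fintype Ω] (ρ : Ω → ℝ) (Y : Ω → (V → Bool)) (f : (V → Bool) → ℝ) :
    ex (law ρ Y) f = ∑ x, ρ x * f (Y x) := by
  unfold ex law
  simp only [Finset.sum_mul]
  rw [Finset.sum_comm]
  refine Finset.sum_congr rfl (fun x _ => ?_)
  simp [ite_mul]

theorem law_nonneg {Ω : Type} [Fintype Ω] (ρ : Ω → ℝ) (h : ∀ x, 0 ≤ ρ x) (Y : Ω → (V → Bool))
    (ω : V → Bool) : 0 ≤ law ρ Y ω := by
  unfold law
  refine Finset.sum_nonneg (fun x _ => ?_)
  split_ifs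
  · exact h x
  · exact le_refl _

theorem law_total {Ω : Type} [Fintype Ω] (ρ : Ω → ℝ) (h : ∑ x, ρ x = 1) (Y : Ω → (V → Bool)) :
    ∑ ω, law ρ Y ω = 1 := by
  have := ex_law ρ Y (fun _ => 1)
  simp only [ex, mul_one] at this
  rw [this, h]

/-- coordinatewise combination of two independent families -/
def comb (op : Bool → Bool → Bool) (μ ν : (V → Bool) → ℝ) : (V → Bool) → ℝ :=
  law (fun z : (V → Bool) × (V → Bool) => μ z.1 * ν z.2) (fun z v => op (z.1 v) (z.2 v))

theorem ex_comb (op : Bool → Bool → Bool) (μ ν : (V → Bool) → ℝ) (f : (V → Bool) → ℝ) :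
    ex (comb op μ ν) f = ex ν (fun y => ex μ (fun x => f (fun v => op (x v) (y v)))) := by
  unfold comb
  rw [ex_law, Fintype.sum_prod_type_right]
  unfold ex
  refine Finset.sum_congr rfl (fun y _ => ?_)
  rw [Finset.mul_sum]
  exact Finset.sum_congr rfl (fun x _ => by ring)

theorem comb_isDist (op : Bool → Bool → Bool) {D : SimpleGraph V} {p q m : ℝ}
    {μ ν : (V → Bool) → ℝ} (hμ : IsDist D p μ) (hν : IsDist D q ν)
    (hm : ∀ v, ex ν (fun y => ex μ (fun x => if op (x v) (y v) = true then 1 else 0)) = m) :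
    IsDist D m (comb op μ ν) := by
  refine ⟨law_nonneg _ (fun z => mul_nonneg (hμ.nonneg _) (hν.nonneg _)) _,
    law_total _ ?_ _, fun v => ?_, ?_⟩
  · rw [Fintype.sum_prod_type]
    simp only [← Finset.mul_sum, hν.total, mul_one, hμ.total]
  · rw [ex_comb]; exact hm v
  · intro A B hAB hD f g hf hg
    rw [ex_comb, ex_comb, ex_comb]
    have e1 : ∀ y : V → Bool, ex μ (fun x => f (fun v => op (x v) (y v)) * g (fun v => op (x v) (y v)))
        = ex μ (fun x => f (fun v => op (x v) (y v))) * ex μ (fun x => g (fun v => op (x v) (y v))) := by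
      intro y
      apply hμ.indep A B hAB hD
      · intro x x' h
        apply hf
        intro i hi
        simp [h i hi]
      · intro x x' h
        apply hg
        intro i hi
        simp [h i hi]
    simp only [e1]
    apply hν.indep A B hAB hD
    · intro y y' h
      unfold ex
      refine Finset.sum_congr rfl (fun x _ => ?_)
      congr 1
      apply hf
      intro i hi
      simp [h i hi]
    · intro y y' h
      unfold ex
      refine Finset.sum_congr rfl (fun x _ => ?_)
      congr 1
      apply hg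
      intro i hi
      simp [h i hi]

theorem and_isDist {D : SimpleGraph V} {p q : ℝ}
    {μ ν : (V → Bool) → ℝ} (hμ : IsDist D p μ) (hν : IsDist D q ν) :
    IsDist D (p * q) (comb and μ ν) := by
  refine comb_isDist and hμ hν (fun v => ?_)
  have : ∀ y : V → Bool, ex μ (fun x => if (x v && y v) = true then (1 : ℝ) else 0)
      = p * (if y v = true then 1 else 0) := by
    intro y
    rw [← hμ.marg v]
    by_cases h : y v = true
    · simp [h]
    · simp [h, ex]
  simp only [this]
  rw [ex_smul, hν.marg]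

theorem or_isDist {D : SimpleGraph V} {p q : ℝ}
    {μ ν : (V → Bool) → ℝ} (hμ : IsDist D p μ) (hν : IsDist D q ν) :
    IsDist D (p + q - p * q) (comb or μ ν) := by
  refine comb_isDist or hμ hν (fun v => ?_)
  have : ∀ y : V → Bool, ex μ (fun x => if (x v || y v) = true then (1 : ℝ) else 0)
      = p + (1 - p) * (if y v = true then 1 else 0) := by
    intro y
    by_cases h : y v = true
    · simp [h, ex, hμ.total]
    · simp only [h, Bool.or_false, if_false, mul_zero, add_zero]
      have := hμ.marg v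
      simpa using this
  simp only [this]
  rw [ex_add, ex_smul, hν.marg]
  have h1 : ex ν (fun _ => p) = p := by
    have := ex_smul ν p (fun _ => 1)
    simp only [mul_one] at this
    rw [this, ex_one hν, mul_one]
  rw [h1]; ring

/-- independent coins -/
def ber (r : ℝ) : (V → Bool) → ℝ := pw (fun (_ : V) (b : Bool) => if b = true then r else 1 - r)

theorem ber_isDist (D : SimpleGraph V) {r : ℝ} (h0 : 0 ≤ r) (h1 : r ≤ 1) :
    IsDist D r (ber (V := V) r) := by
  have hw : ∀ i : V, ∑ a : Bool, (if a = true then r else 1 - r) = 1 := by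
    intro i; simp
  refine ⟨fun ω => Finset.prod_nonneg (fun i _ => ?_), pw_total _ hw, fun v => ?_, ?_⟩
  · show 0 ≤ (if ω i = true then r else 1 - r)
    split_ifs <;> linarith
  · unfold ex ber
    have := pw_sum_prod (fun (_ : V) (b : Bool) => if b = true then r else 1 - r)
      (fun (i : V) (b : Bool) => if i = v then (if b = true then 1 else 0) else 1)
    have e : ∀ x : V → Bool, (∏ i, (if i = v then (if x i = true then (1:ℝ) else 0) else 1))
        = if x v = true then 1 else 0 := by
      intro x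
      rw [Finset.prod_ite_eq' Finset.univ v (fun i => if x i = true then (1:ℝ) else 0)]
      simp
    simp only [e] at this
    rw [this]
    rw [← Finset.prod_erase_mul _ _ (Finset.mem_univ v)]
    rw [Finset.prod_eq_one]
    · simp
    · intro i hi
      have : i ≠ v := (Finset.mem_erase.1 hi).1
      simp [this]
  · intro A B hAB _ f g hf hg
    exact pw_indep _ hw A B hAB f g hf hg

end ops

end Pool.Agent.V11199.TH
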