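import Mathlib
import Pool.Agent.V11199.TH.Prob

set_option linter.all false

namespace Pool.Agent.V11199.TH

open Finset

variable {V : Type} [Fintype V] [DecidableEq V]

theorem indep_prod {D : SimpleGraph V} {p : ℝ} {μ : (V → Bool) → ℝ} (hμ : IsDist D p μ)
    {ι : Type} [DecidableEq ι] (T : ι → Set V)
    (hT : ∀ r r', r ≠ r' → ∀ a ∈ T r, ∀ b ∈ T r', a ≠ b ∧ ¬ D.Adj a b)
    (f : ι → (V → Bool) → ℝ) (hf : ∀ r, DependsOn (f r) (T r)) (Q : Finset ι) :
    ex μ (fun ω => ∏ r ∈ Q, f r ω) = ∏ r ∈ Q, ex μ (f r) := by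
  induction Q using Finset.induction_on with
  | empty => simp [ex_one hμ]
  | insert r Q hr ih =>
    simp only [Finset.prod_insert hr]
    rw [← ih]
    apply hμ.indep (T r) (⋃ q ∈ Q, T q)
    · rw [Set.disjoint_left]
      intro a ha hb
      simp only [Set.mem_iUnion] at hb
      obtain ⟨q, hq, hb⟩ := hb
      exact (hT r q (fun h => hr (h ▸ hq)) a ha a hb).1 rfl
    · intro a ha b hb
      simp only [Set.mem_iUnion] at hb
      obtain ⟨q, hq, hb⟩ := hb
      exact (hT r q (fun h => hr (h ▸ hq)) a ha b hb).2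
    · exact hf r
    · intro x y h
      refine Finset.prod_congr rfl (fun q hq => ?_)
      apply hf q
      intro i hi
      apply h
      simp only [Set.mem_iUnion]
      exact ⟨q, hq, hi⟩

section src

variable {I : Type} [Fintype I] [DecidableEq I]

/-- uniform labels -/
noncomputable def uw (R : ℕ) : I → Fin R → ℝ := fun _ _ => 1 / (R : ℝ)

theorem uw_sum {R : ℕ} (hR : 0 < R) (i : I) : ∑ a, uw (I := I) R i a = 1 := by
  unfold uw
  simp
  have : (R : ℝ) ≠ 0 := by positivity
  field_simp

/-- the set with label `r` -/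
def tset (S : V → Finset I) {R : ℕ} (r : Fin R) (x : I → Fin R) (v : V) : Bool :=
  decide (∀ i ∈ S v, x i = r)

noncomputable def tau (S : V → Finset I) {R : ℕ} (r : Fin R) : (V → Bool) → ℝ :=
  law (pw (uw (I := I) R)) (tset S r)

theorem tau_isDist {D : SimpleGraph V} {s : ℕ} (S : V → Finset I) (hc : ∀ v, (S v).card = s)
    (hS : ∀ a b, (S a ∩ S b).Nonempty ↔ (a = b ∨ D.Adj a b)) {R : ℕ} (hR : 0 < R) (r : Fin R) :
    IsDist D ((1 / (R : ℝ)) ^ s) (tau S r) := by
  have hw := uw_sum (I := I) hR
  refine ⟨law_nonneg _ (fun x => Finset.prod_nonneg (fun i _ => ?_)) _,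
    law_total _ (pw_total _ hw) _, fun v => ?_, ?_⟩
  · unfold uw; positivity
  · unfold tau
    rw [ex_law]
    have := pw_sum_prod (uw (I := I) R)
      (fun (i : I) (b : Fin R) => if i ∈ S v then (if b = r then 1 else 0) else 1)
    have e : ∀ x : I → Fin R, (∏ i, (if i ∈ S v then (if x i = r then (1:ℝ) else 0) else 1))
        = if tset S r x v = true then 1 else 0 := by
      intro x
      unfold tset
      by_cases h : ∀ i ∈ S v, x i = r
      · rw [Finset.prod_eq_one]
        · simp only [decide_eq_true_eq]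
          rw [if_pos h]
        · intro i _
          by_cases hi : i ∈ S v
          · rw [if_pos hi, if_pos (h i hi)]
          · rw [if_neg hi]
      · simp only [decide_eq_true_eq]
        rw [if_neg h]
        push Not at h
        obtain ⟨i, hi, hx⟩ := h
        apply Finset.prod_eq_zero (Finset.mem_univ i)
        rw [if_pos hi, if_neg hx]
    simp only [e] at this
    rw [this]
    have e2 : ∀ i : I, ∑ a : Fin R, uw (I := I) R i a *
        (if i ∈ S v then (if a = r then (1:ℝ) else 0) else 1)
        = if i ∈ S v then 1 / (R : ℝ) else 1 := by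
      intro i
      by_cases hi : i ∈ S v
      · simp only [hi, if_true]
        simp [uw]
      · simp only [hi, if_false, mul_one]
        exact hw i
    simp only [e2]
    rw [Finset.prod_ite, Finset.prod_const, Finset.prod_const_one, mul_one]
    congr 1
    rw [← hc v]
    congr 1
    ext i; simp
  · intro A B hAB hD f g hf hg
    unfold tau
    rw [ex_law, ex_law, ex_law]
    apply pw_indep _ hw {i | ∃ a ∈ A, i ∈ S a} {i | ∃ b ∈ B, i ∈ S b}
    · rw [Set.disjoint_left]
      rintro i ⟨a, ha, hia⟩ ⟨b, hb, hib⟩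
      have := (hS a b).1 ⟨i, Finset.mem_inter.2 ⟨hia, hib⟩⟩
      rcases this with h | h
      · exact Set.disjoint_left.1 hAB ha (h ▸ hb)
      · exact hD a ha b hb h
    · intro x y h
      apply hf
      intro a ha
      unfold tset
      congr 1
      apply propext
      constructor
      · intro h' i hi
        rw [← h i ⟨a, ha, hi⟩]; exact h' i hi
      · intro h' i hi
        rw [h i ⟨a, ha, hi⟩]; exact h' i hi
    · intro x y h
      apply hg
      intro a ha
      unfold tset
      congr 1
      apply propext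
      constructor
      · intro h' i hi
        rw [← h i ⟨a, ha, hi⟩]; exact h' i hi
      · intro h' i hi
        rw [h i ⟨a, ha, hi⟩]; exact h' i hi

theorem thin {D : SimpleGraph V} {s : ℕ} (S : V → Finset I) (hc : ∀ v, (S v).card = s)
    (hS : ∀ a b, (S a ∩ S b).Nonempty ↔ (a = b ∨ D.Adj a b)) {R : ℕ} (hR : 0 < R)
    {p : ℝ} {μ : (V → Bool) → ℝ} (hμ : IsDist D p μ) (h : (V → Bool) → ℝ)
    (h01 : ∀ ω, h ω = 0 ∨ h ω = 1)
    (hanti : ∀ ω ω' : V → Bool, (∀ v, ω' v = true → ω v = true) → h ω ≤ h ω')
    {ε : ℝ} (hε : 0 < ε) (hp : ε ≤ ex μ h) :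
    ∃ ν : (V → Bool) → ℝ, IsDist D (p * (1 / (R : ℝ)) ^ s) ν ∧
      1 - Real.log (1 / ε) / R ≤ ex ν h := by
  have hn : ∀ ω, 0 ≤ h ω := fun ω => by rcases h01 ω with e | e <;> rw [e] <;> norm_num
  have hl : ∀ ω, h ω ≤ 1 := fun ω => by rcases h01 ω with e | e <;> rw [e] <;> norm_num
  have hR' : (0 : ℝ) < R := by exact_mod_cast hR
  set E : Fin R → (I → Fin R) → ℝ := fun r x => ex μ (fun ω => h (fun v => ω v && tset S r x v))
    with hE
  have hE1 : ∀ r x, E r x ≤ 1 := by
    intro r x
    rw [← ex_one hμ]
    exact ex_mono hμ.nonneg (fun ω => hl _)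
  have key : ∀ x : I → Fin R, ∑ r, (1 - E r x) ≤ Real.log (1 / ε) := by
    intro x
    have hprod : ε ≤ ∏ r, E r x := by
      have e1 := indep_prod hμ (fun r : Fin R => {v | tset S r x v = true}) ?_
        (fun r ω => h (fun v => ω v && tset S r x v)) ?_ Finset.univ
      · rw [hE]
        simp only
        rw [← e1]
        refine le_trans hp (ex_mono hμ.nonneg (fun ω => ?_))
        rcases h01 ω with e | e
        · rw [e]; exact Finset.prod_nonneg (fun r _ => hn _)
        · rw [e]
          rw [Finset.prod_eq_one]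
          intro r _
          apply le_antisymm (hl _)
          rw [← e]
          apply hanti
          intro v hv
          simp only [Bool.and_eq_true] at hv
          exact hv.1
      · intro r r' hr a ha b hb
        simp only [Set.mem_setOf_eq, tset, decide_eq_true_eq] at ha hb
        have : ¬ (S a ∩ S b).Nonempty := by
          rintro ⟨i, hi⟩
          rw [Finset.mem_inter] at hi
          exact hr ((ha i hi.1).symm.trans (hb i hi.2))
        rw [hS] at this
        push Not at this
        exact this
      · intro r ω ω' hh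
        simp only
        congr 1
        ext v
        by_cases hv : tset S r x v = true
        · rw [hh v hv]
        · simp [hv]
    have h2 : ∏ r, E r x ≤ Real.exp (- ∑ r, (1 - E r x)) := by
      rw [← Finset.sum_neg_distrib, Real.exp_sum]
      refine Finset.prod_le_prod (fun r _ => ?_) (fun r _ => ?_)
      · exact Finset.sum_nonneg (fun ω _ => mul_nonneg (hμ.nonneg _) (hn _))
      · have := Real.add_one_le_exp (-(1 - E r x))
        linarith
    have h3 := le_trans hprod h2
    have h4 := Real.log_le_log hε h3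
    rw [Real.log_exp] at h4
    rw [one_div, Real.log_inv]
    linarith
  have hex : ∀ r : Fin R, ex (comb and μ (tau S r)) h = ∑ x, pw (uw (I := I) R) x * E r x := by
    intro r
    rw [ex_comb]
    unfold tau
    rw [ex_law]
  have htot : ∑ x : I → Fin R, pw (uw (I := I) R) x = 1 := pw_total _ (uw_sum hR)
  have hsum : ∑ r : Fin R, (1 - ex (comb and μ (tau S r)) h) ≤ Real.log (1 / ε) := by
    have e1 : ∀ r : Fin R, 1 - ex (comb and μ (tau S r)) h
        = ∑ x, pw (uw (I := I) R) x * (1 - E r x) := by
      intro r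
      rw [hex r]
      simp only [mul_sub, mul_one, Finset.sum_sub_distrib, htot]
    simp only [e1]
    rw [Finset.sum_comm]
    calc ∑ x, ∑ r, pw (uw (I := I) R) x * (1 - E r x)
        = ∑ x, pw (uw (I := I) R) x * ∑ r, (1 - E r x) := by
          refine Finset.sum_congr rfl (fun x _ => ?_)
          rw [Finset.mul_sum]
      _ ≤ ∑ x : I → Fin R, pw (uw (I := I) R) x * Real.log (1 / ε) := by
          refine Finset.sum_le_sum (fun x _ => mul_le_mul_of_nonneg_left (key x) ?_)
          refine Finset.prod_nonneg (fun i _ => ?_)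
          unfold uw; positivity
      _ = Real.log (1 / ε) := by
          rw [← Finset.sum_mul, htot, one_mul]
  haveI : Nonempty (Fin R) := ⟨⟨0, hR⟩⟩
  have : ∑ r : Fin R, (1 - ex (comb and μ (tau S r)) h)
      ≤ ∑ r : Fin R, Real.log (1 / ε) / R := by
    rw [Finset.sum_const, Finset.card_univ, Fintype.card_fin, nsmul_eq_mul]
    rw [mul_div_cancel₀ _ (ne_of_gt hR')]
    exact hsum
  obtain ⟨r, _, hr⟩ := Finset.exists_le_of_sum_le (Finset.univ_nonempty) this
  exact ⟨comb and μ (tau S r), and_isDist hμ (tau_isDist S hc hS hR r), by linarith⟩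

end src

end Pool.Agent.V11199.TH
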