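import Mathlib
import Pool.Agent.V11199.TH.Thin

set_option linter.all false

namespace Pool.Agent.V11199.TH

open Finset

variable {V : Type} [Fintype V] [DecidableEq V]

theorem copies {D : SimpleGraph V} {p : ℝ} (p0 : 0 ≤ p) (p1 : p ≤ 1) {μ : (V → Bool) → ℝ}
    (hμ : IsDist D p μ) (g : (V → Bool) → ℝ) (g01 : ∀ ω, g ω = 0 ∨ g ω = 1)
    (gm : ∀ ω ω' : V → Bool, (∀ v, ω v = true → ω' v = true) → g ω ≤ g ω')
    {ε : ℝ} (hε : ε ≤ ex μ g) (hε1 : ε ≤ 1) (R : ℕ) :
    ∃ (q : ℝ) (ν : (V → Bool) → ℝ), IsDist D q ν ∧ 0 ≤ q ∧ q ≤ 1 ∧ q ≤ R * p ∧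
      1 - (1 - ε) ^ R ≤ ex ν g := by
  have gn : ∀ ω, 0 ≤ g ω := fun ω => by rcases g01 ω with e | e <;> rw [e] <;> norm_num
  have gl : ∀ ω, g ω ≤ 1 := fun ω => by rcases g01 ω with e | e <;> rw [e] <;> norm_num
  induction R with
  | zero =>
    refine ⟨0, ber 0, ber_isDist D le_rfl zero_le_one, le_rfl, zero_le_one, by simp, ?_⟩
    simp only [pow_zero, sub_self]
    exact Finset.sum_nonneg (fun ω _ => mul_nonneg
      ((ber_isDist D (le_refl 0) zero_le_one).nonneg ω) (gn ω))
  | succ R ih =>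
    obtain ⟨q, ν, hν, q0, q1, hq, hg⟩ := ih
    refine ⟨p + q - p * q, comb or μ ν, or_isDist hμ hν, ?_, ?_, ?_, ?_⟩
    · nlinarith
    · nlinarith
    · push_cast; nlinarith
    · have h1 : ex (comb or μ ν) (fun ω => 1 - g ω) ≤ (1 - ex μ g) * (1 - ex ν g) := by
        rw [ex_comb]
        have h2 : ∀ y : V → Bool, ex μ (fun x => 1 - g (fun v => (x v || y v)))
            ≤ (1 - ex μ g) * (1 - g y) := by
          intro y
          have : ex μ (fun x => 1 - g (fun v => (x v || y v)))
              ≤ ex μ (fun x => (1 - g y) * (1 - g x)) := by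
            refine ex_mono hμ.nonneg (fun x => ?_)
            rcases g01 y with e | e
            · rw [e]
              have := gm x (fun v => (x v || y v)) (fun v hv => by simp [hv])
              linarith
            · have := gm y (fun v => (x v || y v)) (fun v hv => by simp [hv])
              rw [e] at this ⊢
              linarith
          refine le_trans this ?_
          rw [ex_smul, ex_sub, ex_one hμ]
          linarith [mul_comm (1 - g y) (1 - ex μ g)]
        refine le_trans (ex_mono hν.nonneg h2) ?_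
        rw [ex_smul, ex_sub, ex_one hν]
      rw [ex_sub, ex_one (or_isDist hμ hν)] at h1
      have hμ1 : ex μ g ≤ 1 := by
        rw [← ex_one hμ]; exact ex_mono hμ.nonneg gl
      have hν1 : ex ν g ≤ 1 := by
        rw [← ex_one hν]; exact ex_mono hν.nonneg gl
      have h3 : (1 - ex μ g) * (1 - ex ν g) ≤ (1 - ε) * (1 - ε) ^ R := by
        apply mul_le_mul <;> linarith
      rw [pow_succ']
      linarith

theorem raise {D : SimpleGraph V} {p q : ℝ} (p0 : 0 ≤ p) (hpq : p ≤ q) (q1 : q ≤ 1)
    {μ : (V → Bool) → ℝ} (hμ : IsDist D p μ) (g : (V → Bool) → ℝ)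
    (gm : ∀ ω ω' : V → Bool, (∀ v, ω v = true → ω' v = true) → g ω ≤ g ω') :
    ∃ ν : (V → Bool) → ℝ, IsDist D q ν ∧ ex μ g ≤ ex ν g := by
  have : ∃ r : ℝ, 0 ≤ r ∧ r ≤ 1 ∧ p + r - p * r = q := by
    by_cases hp : p = 1
    · exact ⟨0, le_rfl, zero_le_one, by linarith⟩
    · have : 0 < 1 - p := by
        have : p < 1 := lt_of_le_of_ne (le_trans hpq q1) hp
        linarith
      refine ⟨(q - p) / (1 - p), div_nonneg (by linarith) (le_of_lt this), ?_, ?_⟩
      · rw [div_le_one this]; linarith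
      · field_simp; ring
  obtain ⟨r, r0, r1, hr⟩ := this
  have hb := ber_isDist (V := V) D r0 r1
  refine ⟨comb or μ (ber r), hr ▸ or_isDist hμ hb, ?_⟩
  rw [ex_comb]
  calc ex μ g = ex (ber (V := V) r) (fun _ => ex μ g * 1) := by rw [ex_smul, ex_one hb, mul_one]
    _ ≤ _ := by
      refine ex_mono hb.nonneg (fun y => ?_)
      rw [mul_one]
      exact ex_mono hμ.nonneg (fun x => gm _ _ (fun v hv => by simp [hv]))

theorem lower {D : SimpleGraph V} {p q : ℝ} (q0 : 0 ≤ q) (hpq : q ≤ p)
    {μ : (V → Bool) → ℝ} (hμ : IsDist D p μ) (h : (V → Bool) → ℝ)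
    (hm : ∀ ω ω' : V → Bool, (∀ v, ω' v = true → ω v = true) → h ω ≤ h ω') :
    ∃ ν : (V → Bool) → ℝ, IsDist D q ν ∧ ex μ h ≤ ex ν h := by
  have : ∃ r : ℝ, 0 ≤ r ∧ r ≤ 1 ∧ p * r = q := by
    by_cases hp : p = 0
    · exact ⟨0, le_rfl, zero_le_one, by rw [hp] at hpq ⊢; linarith⟩
    · have : 0 < p := lt_of_le_of_ne (le_trans q0 hpq) (Ne.symm hp)
      refine ⟨q / p, div_nonneg q0 (le_of_lt this), ?_, ?_⟩
      · rw [div_le_one this]; exact hpq
      · field_simp
  obtain ⟨r, r0, r1, hr⟩ := this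
  have hb := ber_isDist (V := V) D r0 r1
  refine ⟨comb and μ (ber r), hr ▸ and_isDist hμ hb, ?_⟩
  rw [ex_comb]
  calc ex μ h = ex (ber (V := V) r) (fun _ => ex μ h * 1) := by rw [ex_smul, ex_one hb, mul_one]
    _ ≤ _ := by
      refine ex_mono hb.nonneg (fun y => ?_)
      rw [mul_one]
      refine ex_mono hμ.nonneg (fun x => hm _ _ (fun v hv => ?_))
      simp only [Bool.and_eq_true] at hv
      exact hv.1

theorem ex_sum_marg {D : SimpleGraph V} {p : ℝ} {μ : (V → Bool) → ℝ} (hμ : IsDist D p μ) :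
    ex μ (fun ω => ∑ v, if ω v = true then (1 : ℝ) else 0) = Fintype.card V * p := by
  have : ∀ Q : Finset V, ex μ (fun ω => ∑ v ∈ Q, if ω v = true then (1 : ℝ) else 0)
      = Q.card * p := by
    intro Q
    induction Q using Finset.induction_on with
    | empty => simp [ex]
    | insert v Q hv ih =>
      simp only [Finset.sum_insert hv]
      rw [ex_add, ih, hμ.marg, Finset.card_insert_of_notMem hv]
      push_cast; ring
  exact this Finset.univ

theorem union_bound {D : SimpleGraph V} {p : ℝ} {μ : (V → Bool) → ℝ} (hμ : IsDist D p μ)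
    (g : (V → Bool) → ℝ) (g01 : ∀ ω, g ω = 0 ∨ g ω = 1) (g0 : g (fun _ => false) = 0) :
    ex μ g ≤ Fintype.card V * p := by
  rw [← ex_sum_marg hμ]
  refine ex_mono hμ.nonneg (fun ω => ?_)
  by_cases h : ∃ v, ω v = true
  · obtain ⟨v, hv⟩ := h
    calc g ω ≤ 1 := by rcases g01 ω with e | e <;> rw [e] <;> norm_num
      _ = if ω v = true then (1 : ℝ) else 0 := by rw [if_pos hv]
      _ ≤ _ := Finset.single_le_sum (f := fun v => if ω v = true then (1 : ℝ) else 0)
        (fun i _ => by positivity) (Finset.mem_univ v)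
  · push Not at h
    have : ω = fun _ => false := by
      ext v; simpa using h v
    rw [this, g0]
    exact Finset.sum_nonneg (fun v _ => by positivity)

theorem union_bound' {D : SimpleGraph V} {μ : (V → Bool) → ℝ} (hμ : IsDist D 1 μ)
    (g : (V → Bool) → ℝ) (g01 : ∀ ω, g ω = 0 ∨ g ω = 1) (g1 : g (fun _ => true) = 1) :
    1 ≤ ex μ g := by
  have h1 : ex μ (fun ω => 1 - ((Fintype.card V : ℝ) * 1 - ∑ v, if ω v = true then (1 : ℝ) else 0))
      ≤ ex μ g := by
    refine ex_mono hμ.nonneg (fun ω => ?_)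
    have e : (Fintype.card V : ℝ) * 1 - ∑ v, (if ω v = true then (1 : ℝ) else 0)
        = ∑ v, (1 - if ω v = true then (1 : ℝ) else 0) := by
      rw [Finset.sum_sub_distrib]; simp
    rw [e]
    by_cases h : ∃ v, ω v = false
    · obtain ⟨v, hv⟩ := h
      have : (1 : ℝ) ≤ ∑ v, (1 - if ω v = true then (1 : ℝ) else 0) := by
        calc (1 : ℝ) = 1 - if ω v = true then (1 : ℝ) else 0 := by simp [hv]
          _ ≤ _ := Finset.single_le_sum (f := fun v => 1 - if ω v = true then (1 : ℝ) else 0)
            (fun i _ => by split_ifs <;> norm_num) (Finset.mem_univ v)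
      have : 0 ≤ g ω := by rcases g01 ω with e | e <;> rw [e] <;> norm_num
      linarith
    · push Not at h
      have : ω = fun _ => true := by
        ext v; simpa using h v
      rw [this, g1]
      simp
  refine le_trans ?_ h1
  rw [ex_sub, ex_sub, ex_one hμ, ex_sum_marg hμ]
  have := ex_smul μ ((Fintype.card V : ℝ) * 1) (fun _ => 1)
  simp only [mul_one] at this ⊢
  rw [this, ex_one hμ]
  simp

/-- `D` joins two slots exactly when their sets of at most `s` sources meet. -/
def Src {V : Type} (s : ℕ) (D : SimpleGraph V) : Prop :=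
  ∃ (I : Type) (_ : Fintype I) (S : V → Finset I), (∀ v, (S v).card ≤ s) ∧
    ∀ a b, a ≠ b → (D.Adj a b ↔ ∃ i, i ∈ S a ∧ i ∈ S b)

theorem src_exact {s : ℕ} {D : SimpleGraph V} (h : Src s D) :
    ∃ (I : Type) (_ : Fintype I) (_ : DecidableEq I) (S : V → Finset I),
      (∀ v, (S v).card = s + 1) ∧ ∀ a b, (S a ∩ S b).Nonempty ↔ (a = b ∨ D.Adj a b) := by
  classical
  obtain ⟨I, hI, S, hS, hD⟩ := h
  refine ⟨I ⊕ (V × Fin (s + 1)), inferInstance, inferInstance, fun v =>
    ((S v).disjSum ((Finset.univ.filter (fun i : Fin (s + 1) => i.val < s + 1 - (S v).card)).image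
      (fun i => (v, i)))), fun v => ?_, fun a b => ?_⟩
  · rw [Finset.card_disjSum, Finset.card_image_of_injective _ (fun i j h => (Prod.mk.inj h).2)]
    have : (Finset.univ.filter (fun i : Fin (s + 1) => i.val < s + 1 - (S v).card)).card
        = s + 1 - (S v).card := by
      rw [Fin.card_filter_val_lt]
      omega
    rw [this]
    have := hS v
    omega
  · constructor
    · rintro ⟨x, hx⟩
      rw [Finset.mem_inter] at hx
      by_cases hab : a = b
      · left; exact hab
      · right
        rw [hD a b hab]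
        rcases x with i | ⟨w, j⟩
        · simp only [Finset.inl_mem_disjSum] at hx
          exact ⟨i, hx⟩
        · simp only [Finset.inr_mem_disjSum, Finset.mem_image, Prod.mk.injEq] at hx
          obtain ⟨⟨_, _, h1, _⟩, ⟨_, _, h2, _⟩⟩ := hx
          exact absurd (h1.trans h2.symm) hab
    · intro h
      by_cases hab : a = b
      · subst hab
        refine ⟨Sum.inr (a, ⟨0, by omega⟩), ?_⟩
        rw [Finset.inter_self]
        simp only [Finset.inr_mem_disjSum, Finset.mem_image, Finset.mem_filter, Finset.mem_univ,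
          true_and]
        refine ⟨⟨0, by omega⟩, ?_, rfl⟩
        have := hS a
        simp only
        omega
      · have h2 := h.resolve_left hab
        rw [hD a b hab] at h2
        obtain ⟨i, h3, h4⟩ := h2
        exact ⟨Sum.inl i, by simp [h3, h4]⟩

theorem src_of_degree {d : ℕ} {D : SimpleGraph V} (h : ∀ v, (D.neighborSet v).ncard ≤ d) :
    Src d D := by
  classical
  refine ⟨Sym2 V, inferInstance, fun v => (Finset.univ.filter (fun x => D.Adj v x)).image
    (fun x => s(v, x)), fun v => ?_, fun a b hab => ?_⟩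
  · refine le_trans Finset.card_image_le ?_
    refine le_trans (le_of_eq ?_) (h v)
    rw [Set.ncard_eq_toFinset_card']
    congr 1
    ext x; simp
  · constructor
    · intro hadj
      refine ⟨s(a, b), ?_, ?_⟩
      · simp only [Finset.mem_image, Finset.mem_filter, Finset.mem_univ, true_and]
        exact ⟨b, hadj, rfl⟩
      · simp only [Finset.mem_image, Finset.mem_filter, Finset.mem_univ, true_and]
        exact ⟨a, hadj.symm, Sym2.eq_swap⟩
    · rintro ⟨i, h1, h2⟩
      simp only [Finset.mem_image, Finset.mem_filter, Finset.mem_univ, true_and] at h1 h2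
      obtain ⟨x, hx, h1⟩ := h1
      obtain ⟨y, hy, h2⟩ := h2
      rw [← h2, Sym2.eq_iff] at h1
      rcases h1 with ⟨e, _⟩ | ⟨e1, e2⟩
      · exact absurd e hab
      · rw [e2] at hx; exact hx

end Pool.Agent.V11199.TH
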