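import Mathlib
import Pool.Agent.V11199.TH.Ops

set_option linter.all false

namespace Pool.Agent.V11199.TH

open Finset Filter Topology

/-- The possible edges on the vertex set `Fin n`. -/
abbrev Slot (n : ℕ) : Type := {e : Sym2 (Fin n) // ¬ e.IsDiag}

/-- The graph whose edges are the slots with value `true`. -/
def toGraph {n : ℕ} (ω : Slot n → Bool) : SimpleGraph (Fin n) where
  Adj a b := ∃ h : ¬ (s(a, b)).IsDiag, ω ⟨s(a, b), h⟩ = true
  symm := ⟨by
    rintro a b ⟨h, hω⟩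
    have e : s(b, a) = s(a, b) := Sym2.eq_swap
    refine ⟨by rw [e]; exact h, ?_⟩
    have : (⟨s(b, a), by rw [e]; exact h⟩ : Slot n) = ⟨s(a, b), h⟩ := Subtype.ext e
    rw [this]; exact hω⟩
  loopless := ⟨by
    rintro a ⟨h, _⟩
    exact h (by simp)⟩

open Classical in
/-- Indicator of a graph property. -/
noncomputable def ind {n : ℕ} (P : SimpleGraph (Fin n) → Prop) (ω : Slot n → Bool) : ℝ :=
  if P (toGraph ω) then 1 else 0

/-- Probability that the random graph with edge indicators distributed as `μ` has `P`. -/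
noncomputable def prob {n : ℕ} (μ : (Slot n → Bool) → ℝ) (P : SimpleGraph (Fin n) → Prop) : ℝ :=
  ex μ (ind P)

/-- `μ` is the law of the edge indicators of a random graph on `Fin n` with edge probability `p`
and with a dependency graph satisfying `C`. -/
def Good {n : ℕ} (C : SimpleGraph (Slot n) → Prop) (p : ℝ) (μ : (Slot n → Bool) → ℝ) : Prop :=
  ∃ D : SimpleGraph (Slot n), C D ∧ IsDist D p μ

/-- Maximum degree at most `d`. -/
def Deg {n : ℕ} (d : ℕ) (D : SimpleGraph (Slot n)) : Prop := ∀ e, (D.neighborSet e).ncard ≤ d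

/-- A monotone graph property, nontrivial for all large `n`. -/
def MonoProp (P : ∀ n, SimpleGraph (Fin n) → Prop) : Prop :=
  (∀ n G H, G ≤ H → P n G → P n H) ∧ ∀ᶠ n in atTop, (∃ G, P n G) ∧ (∃ G, ¬ P n G)

/-- `L` is a lower threshold function. -/
def LowerThreshold (P : ∀ n, SimpleGraph (Fin n) → Prop)
    (C : ∀ n, SimpleGraph (Slot n) → Prop) (L : ℕ → ℝ) : Prop :=
  (∀ n, 0 < L n) ∧
  (∀ p : ℕ → ℝ, (∀ n, 0 ≤ p n ∧ p n ≤ 1) → Tendsto (fun n => p n / L n) atTop (𝓝 0) →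
    ∀ μ : ∀ n, (Slot n → Bool) → ℝ, (∀ n, Good (C n) (p n) (μ n)) →
      Tendsto (fun n => prob (μ n) (P n)) atTop (𝓝 0)) ∧
  (∀ p : ℕ → ℝ, (∀ n, 0 < p n ∧ p n ≤ 1) → Tendsto (fun n => L n / p n) atTop (𝓝 0) →
    ∃ μ : ∀ n, (Slot n → Bool) → ℝ, (∀ n, Good (C n) (p n) (μ n)) ∧
      Tendsto (fun n => prob (μ n) (P n)) atTop (𝓝 1))

/-- `U` is an upper threshold function. -/
def UpperThreshold (P : ∀ n, SimpleGraph (Fin n) → Prop)
    (C : ∀ n, SimpleGraph (Slot n) → Prop) (U : ℕ → ℝ) : Prop :=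
  (∀ n, 0 < U n) ∧
  (∀ p : ℕ → ℝ, (∀ n, 0 < p n ∧ p n ≤ 1) → Tendsto (fun n => U n / p n) atTop (𝓝 0) →
    ∀ μ : ∀ n, (Slot n → Bool) → ℝ, (∀ n, Good (C n) (p n) (μ n)) →
      Tendsto (fun n => prob (μ n) (P n)) atTop (𝓝 1)) ∧
  (∀ p : ℕ → ℝ, (∀ n, 0 ≤ p n ∧ p n ≤ 1) → Tendsto (fun n => p n / U n) atTop (𝓝 0) →
    ∃ μ : ∀ n, (Slot n → Bool) → ℝ, (∀ n, Good (C n) (p n) (μ n)) ∧
      Tendsto (fun n => prob (μ n) (P n)) atTop (𝓝 0))

theorem ind01 {n : ℕ} (P : SimpleGraph (Fin n) → Prop) (ω : Slot n → Bool) :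
    ind P ω = 0 ∨ ind P ω = 1 := by
  unfold ind; split_ifs <;> simp

theorem ind_mono {n : ℕ} {P : SimpleGraph (Fin n) → Prop} (hP : ∀ G H, G ≤ H → P G → P H)
    (ω ω' : Slot n → Bool) (h : ∀ v, ω v = true → ω' v = true) : ind P ω ≤ ind P ω' := by
  unfold ind
  by_cases h1 : P (toGraph ω)
  · have : P (toGraph ω') := by
      refine hP _ _ ?_ h1
      rintro a b ⟨hd, hω⟩
      exact ⟨hd, h _ hω⟩
    rw [if_pos h1, if_pos this]
  · rw [if_neg h1]; split_ifs <;> norm_num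

theorem toGraph_false {n : ℕ} : toGraph (n := n) (fun _ => false) = ⊥ := by
  ext a b
  constructor
  · rintro ⟨_, h⟩; simp at h
  · intro h; exact absurd h (by simp)

theorem toGraph_true {n : ℕ} : toGraph (n := n) (fun _ => true) = ⊤ := by
  ext a b
  constructor
  · rintro ⟨h, _⟩
    simp only [Sym2.isDiag_iff_proj_eq] at h
    simpa using h
  · intro h
    refine ⟨?_, rfl⟩
    simp only [Sym2.isDiag_iff_proj_eq]
    simpa using h

theorem prob_nonneg {n : ℕ} {C : SimpleGraph (Slot n) → Prop} {p : ℝ} {μ : (Slot n → Bool) → ℝ}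
    (h : Good C p μ) (P : SimpleGraph (Fin n) → Prop) : 0 ≤ prob μ P := by
  obtain ⟨D, _, hμ⟩ := h
  refine Finset.sum_nonneg (fun ω _ => mul_nonneg (hμ.nonneg ω) ?_)
  rcases ind01 P ω with e | e <;> rw [e] <;> norm_num

theorem prob_le_one {n : ℕ} {C : SimpleGraph (Slot n) → Prop} {p : ℝ} {μ : (Slot n → Bool) → ℝ}
    (h : Good C p μ) (P : SimpleGraph (Fin n) → Prop) : prob μ P ≤ 1 := by
  obtain ⟨D, _, hμ⟩ := h
  unfold prob
  rw [← ex_one hμ]
  refine ex_mono hμ.nonneg (fun ω => ?_)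
  rcases ind01 P ω with e | e <;> rw [e] <;> norm_num

theorem good_ber {n : ℕ} {C : SimpleGraph (Slot n) → Prop} (hC : C ⊥) {p : ℝ} (h0 : 0 ≤ p)
    (h1 : p ≤ 1) : Good C p (ber p) := ⟨⊥, hC, ber_isDist ⊥ h0 h1⟩

/-- choose nearly optimal distributions -/
theorem choose_seq (X : ℕ → Type) (G : ∀ n, X n → Prop) (F : ∀ n, X n → ℝ)
    (hne : ∀ n, ∃ x, G n x) (h1 : ∀ n x, G n x → F n x ≤ 1)
    (h : ∀ ε : ℝ, 0 < ε → ∀ᶠ n in atTop, ∃ x, G n x ∧ 1 - ε ≤ F n x) :
    ∃ x : ∀ n, X n, (∀ n, G n (x n)) ∧ Tendsto (fun n => F n (x n)) atTop (𝓝 1) := by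
  have hch : ∀ n, ∃ x, G n x ∧ sSup {t | ∃ y, G n y ∧ F n y = t} - 1 / ((n : ℝ) + 1) < F n x := by
    intro n
    obtain ⟨x0, hx0⟩ := hne n
    have hn : ({t | ∃ y, G n y ∧ F n y = t} : Set ℝ).Nonempty := ⟨F n x0, x0, hx0, rfl⟩
    have : sSup {t | ∃ y, G n y ∧ F n y = t} - 1 / ((n : ℝ) + 1)
        < sSup {t | ∃ y, G n y ∧ F n y = t} := by
      have : (0 : ℝ) < 1 / ((n : ℝ) + 1) := by positivity
      linarith
    obtain ⟨t, ⟨y, hy, rfl⟩, hlt⟩ := exists_lt_of_lt_csSup hn this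
    exact ⟨y, hy, hlt⟩
  choose x hx hx2 using hch
  refine ⟨x, hx, ?_⟩
  rw [tendsto_order]
  constructor
  · intro a ha
    have hε : 0 < (1 - a) / 2 := by linarith
    have e2 : ∀ᶠ n : ℕ in atTop, 1 / ((n : ℝ) + 1) < (1 - a) / 2 :=
      (tendsto_order.1 tendsto_one_div_add_atTop_nhds_zero_nat).2 _ hε
    filter_upwards [h _ hε, e2] with n ⟨y, hy, hy2⟩ hn2
    have hb : BddAbove {t | ∃ y, G n y ∧ F n y = t} := ⟨1, by rintro t ⟨z, hz, rfl⟩; exact h1 n z hz⟩
    have := le_csSup hb ⟨y, hy, rfl⟩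
    have := hx2 n
    linarith
  · intro a ha
    exact Eventually.of_forall (fun n => lt_of_le_of_lt (h1 n _ (hx n)) ha)

theorem lower_exists (P : ∀ n, SimpleGraph (Fin n) → Prop) (hP : MonoProp P)
    (C : ∀ n, SimpleGraph (Slot n) → Prop) (hC : ∀ n, C n ⊥) : ∃ L, LowerThreshold P C L := by
  obtain ⟨hmono, hnt⟩ := hP
  set S : ℕ → Set ℝ := fun n => {q | 0 ≤ q ∧ q ≤ 1 ∧ ∃ μ, Good (C n) q μ ∧ 1 / 2 ≤ prob μ (P n)}
    with hS
  have hbdd : ∀ n, BddBelow (S n) := fun n => ⟨0, fun q hq => hq.1⟩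
  have hpos : ∀ᶠ n in atTop, (S n).Nonempty ∧ 0 < sInf (S n) := by
    filter_upwards [hnt] with n ⟨⟨G, hG⟩, ⟨H, hH⟩⟩
    have htop : P n ⊤ := hmono n G ⊤ le_top hG
    have hbot : ¬ P n ⊥ := fun h => hH (hmono n ⊥ H bot_le h)
    have hne : (S n).Nonempty := by
      refine ⟨1, zero_le_one, le_rfl, ber 1, good_ber (hC n) zero_le_one le_rfl, ?_⟩
      have := union_bound' (ber_isDist (V := Slot n) ⊥ zero_le_one (le_refl (1 : ℝ))) (ind (P n))
        (ind01 _) (by unfold ind; rw [toGraph_true, if_pos htop])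
      unfold prob
      linarith
    refine ⟨hne, ?_⟩
    have hq : ∀ q ∈ S n, 1 / 2 ≤ (Fintype.card (Slot n) : ℝ) * q := by
      rintro q ⟨_, _, μ, ⟨D, _, hμ⟩, h⟩
      refine le_trans h (union_bound hμ (ind (P n)) (ind01 _) ?_)
      unfold ind; rw [toGraph_false, if_neg hbot]
    have hcard : (0 : ℝ) < Fintype.card (Slot n) := by
      obtain ⟨q, hq'⟩ := hne
      have h1 := hq q hq'
      rcases Nat.eq_zero_or_pos (Fintype.card (Slot n)) with h0 | h0
      · rw [h0] at h1; norm_num at h1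
      · exact_mod_cast h0
    have : (1 / 2) / (Fintype.card (Slot n) : ℝ) ≤ sInf (S n) := by
      refine le_csInf hne (fun q hq' => ?_)
      rw [div_le_iff₀ hcard]
      linarith [hq q hq', mul_comm (Fintype.card (Slot n) : ℝ) q]
    exact lt_of_lt_of_le (by positivity) this
  set L : ℕ → ℝ := fun n => if 0 < sInf (S n) then sInf (S n) else 1 with hL
  have hLpos : ∀ n, 0 < L n := by
    intro n; rw [hL]; simp only; split_ifs with h
    · exact h
    · exact zero_lt_one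
  refine ⟨L, hLpos, ?_, ?_⟩
  · intro p hp hlim μ hμ
    rw [tendsto_order]
    constructor
    · intro a ha
      exact Eventually.of_forall (fun n => lt_of_lt_of_le ha (prob_nonneg (hμ n) _))
    · intro ε hε
      set ε' := min ε 1 with hε'
      have e0 : 0 < ε' := lt_min hε zero_lt_one
      have e1 : ε' ≤ 1 := min_le_right _ _
      obtain ⟨R, hR⟩ := exists_pow_lt_of_lt_one (show (0 : ℝ) < 1 / 2 by norm_num)
        (show 1 - ε' < 1 by linarith)
      have hlim' := (tendsto_order.1 hlim).2 (1 / ((R : ℝ) + 1)) (by positivity)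
      filter_upwards [hpos, hlim'] with n ⟨hne, hn⟩ hl
      by_contra hcon
      push Not at hcon
      obtain ⟨D, hD, hμn⟩ := hμ n
      obtain ⟨q, ν, hν, q0, q1, hq, hg⟩ := copies (hp n).1 (hp n).2 hμn (ind (P n)) (ind01 _)
        (ind_mono (hmono n)) (ε := ε') (le_trans (min_le_left _ _) hcon) e1 R
      have hqS : q ∈ S n := ⟨q0, q1, ν, ⟨D, hD, hν⟩, by unfold prob; linarith⟩
      have h1 : sInf (S n) ≤ q := csInf_le (hbdd n) hqS
      have hLn : L n = sInf (S n) := by rw [hL]; simp only; rw [if_pos hn]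
      rw [div_lt_iff₀ (hLpos n)] at hl
      rw [hLn] at hl
      have h2 : (R : ℝ) * p n ≤ R * (1 / ((R : ℝ) + 1) * sInf (S n)) :=
        mul_le_mul_of_nonneg_left (le_of_lt hl) (by positivity)
      have h3 : (R : ℝ) * (1 / ((R : ℝ) + 1) * sInf (S n)) < sInf (S n) := by
        have : (R : ℝ) * (1 / ((R : ℝ) + 1)) < 1 := by
          rw [mul_one_div, div_lt_one (by positivity)]; linarith
        nlinarith
      linarith
  · intro p hp hlim
    apply choose_seq (fun n => (Slot n → Bool) → ℝ) (fun n μ => Good (C n) (p n) μ)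
      (fun n μ => prob μ (P n)) (fun n => ⟨_, good_ber (hC n) (hp n).1.le (hp n).2⟩)
      (fun n μ h => prob_le_one h _)
    intro ε hε
    obtain ⟨R, hR⟩ := exists_pow_lt_of_lt_one hε (show (1 - 1 / 2 : ℝ) < 1 by norm_num)
    have hlim' := (tendsto_order.1 hlim).2 (1 / (2 * ((R : ℝ) + 1))) (by positivity)
    filter_upwards [hpos, hlim'] with n ⟨hne, hn⟩ hl
    have hLn : L n = sInf (S n) := by rw [hL]; simp only; rw [if_pos hn]
    obtain ⟨q, hqS, hq⟩ := exists_lt_of_csInf_lt hne (show sInf (S n) < 2 * sInf (S n) by linarith)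
    obtain ⟨q0, q1, μ, ⟨D, hD, hμ⟩, hh⟩ := hqS
    obtain ⟨q', ν, hν, q0', q1', hq', hg⟩ := copies q0 q1 hμ (ind (P n)) (ind01 _)
        (ind_mono (hmono n)) (ε := 1 / 2) hh (by norm_num) R
    have hle : q' ≤ p n := by
      rw [div_lt_iff₀ (hp n).1, hLn] at hl
      have h1 : (R : ℝ) * q ≤ ((R : ℝ) + 1) * (2 * sInf (S n)) := by
        apply mul_le_mul _ hq.le q0 (by positivity)
        linarith
      have h2 : ((R : ℝ) + 1) * (2 * sInf (S n))
          ≤ ((R : ℝ) + 1) * (2 * (1 / (2 * ((R : ℝ) + 1)) * p n)) := by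
        apply mul_le_mul_of_nonneg_left _ (by positivity)
        linarith
      have h3 : ((R : ℝ) + 1) * (2 * (1 / (2 * ((R : ℝ) + 1)) * p n)) = p n := by
        field_simp
      linarith
    obtain ⟨ν', hν', hge⟩ := raise q0' hle (hp n).2 hν (ind (P n)) (ind_mono (hmono n))
    refine ⟨ν', ⟨D, hD, hν'⟩, ?_⟩
    unfold prob
    linarith

theorem upper_exists (P : ∀ n, SimpleGraph (Fin n) → Prop) (hP : MonoProp P)
    (C : ∀ n, SimpleGraph (Slot n) → Prop) (hC : ∀ n, C n ⊥) (s : ℕ)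
    (hs : ∀ n D, C n D → Src s D) : ∃ U, UpperThreshold P C U := by
  obtain ⟨hmono, hnt⟩ := hP
  set T : ℕ → Set ℝ := fun n => {q | 0 ≤ q ∧ q ≤ 1 ∧ ∃ μ, Good (C n) q μ ∧
    1 / 2 ≤ 1 - prob μ (P n)} with hT
  have hbdd : ∀ n, BddAbove (T n) := fun n => ⟨1, fun q hq => hq.2.1⟩
  have hpos : ∀ᶠ n in atTop, (T n).Nonempty ∧ 0 < sSup (T n) := by
    filter_upwards [hnt] with n ⟨⟨G, hG⟩, ⟨H, hH⟩⟩
    have hbot : ¬ P n ⊥ := fun h => hH (hmono n ⊥ H bot_le h)
    have c0 : (0 : ℝ) < 2 * ((Fintype.card (Slot n) : ℝ) + 1) := by positivity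
    have hmem : 1 / (2 * ((Fintype.card (Slot n) : ℝ) + 1)) ∈ T n := by
      have h0 : 0 ≤ 1 / (2 * ((Fintype.card (Slot n) : ℝ) + 1)) := by positivity
      have h1 : 1 / (2 * ((Fintype.card (Slot n) : ℝ) + 1)) ≤ 1 := by
        rw [div_le_one c0]
        have : (0 : ℝ) ≤ Fintype.card (Slot n) := by positivity
        linarith
      refine ⟨h0, h1, ber _, good_ber (hC n) h0 h1, ?_⟩
      have := union_bound (ber_isDist (V := Slot n) ⊥ h0 h1) (ind (P n))
        (ind01 _) (by unfold ind; rw [toGraph_false, if_neg hbot])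
      have h2 : (Fintype.card (Slot n) : ℝ) * (1 / (2 * ((Fintype.card (Slot n) : ℝ) + 1))) ≤ 1 / 2 := by
        rw [mul_one_div, div_le_div_iff₀ c0 (by norm_num)]
        linarith
      unfold prob
      linarith
    exact ⟨⟨_, hmem⟩, lt_of_lt_of_le (by positivity) (le_csSup (hbdd n) hmem)⟩
  set U : ℕ → ℝ := fun n => if 0 < sSup (T n) then sSup (T n) else 1 with hU
  have hUpos : ∀ n, 0 < U n := by
    intro n; rw [hU]; simp only; split_ifs with h
    · exact h
    · exact zero_lt_one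
  have hthin : ∀ n (q : ℝ) (μ : (Slot n → Bool) → ℝ) (D : SimpleGraph (Slot n)), C n D →
      IsDist D q μ → ∀ ε : ℝ, 0 < ε → ε ≤ 1 - prob μ (P n) → ∀ R : ℕ, 0 < R →
      ∃ ν, IsDist D (q * (1 / (R : ℝ)) ^ (s + 1)) ν ∧
        1 - Real.log (1 / ε) / R ≤ 1 - prob ν (P n) := by
    intro n q μ D hD hμ ε hε h R hR
    obtain ⟨I, hI, hI2, S, hc, hS⟩ := src_exact (hs n D hD)
    have := thin S hc hS hR hμ (fun ω => 1 - ind (P n) ω)
      (fun ω => by rcases ind01 (P n) ω with e | e <;> rw [e] <;> norm_num)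
      (fun ω ω' h => by linarith [ind_mono (hmono n) ω' ω h]) hε
      (by rw [ex_sub, ex_one hμ]; exact h)
    obtain ⟨ν, hν, h2⟩ := this
    rw [ex_sub, ex_one hν] at h2
    exact ⟨ν, hν, h2⟩
  refine ⟨U, hUpos, ?_, ?_⟩
  · intro p hp hlim μ hμ
    rw [tendsto_order]
    constructor
    · intro a ha
      have hε : 0 < 1 - a := by linarith
      obtain ⟨R, hR⟩ := exists_nat_gt (max 0 (2 * Real.log (1 / (1 - a))))
      have hR0 : 0 < R := by
        have : (0 : ℝ) < R := lt_of_le_of_lt (le_max_left _ _) hR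
        exact_mod_cast this
      have hR0' : (0 : ℝ) < R := by exact_mod_cast hR0
      have hRl : Real.log (1 / (1 - a)) / R ≤ 1 / 2 := by
        rw [div_le_div_iff₀ hR0' (by norm_num)]
        have := lt_of_le_of_lt (le_max_right _ _) hR
        linarith
      have hlim' := (tendsto_order.1 hlim).2 ((1 / (R : ℝ)) ^ (s + 1)) (by positivity)
      filter_upwards [hpos, hlim'] with n ⟨hne, hn⟩ hl
      by_contra hcon
      push Not at hcon
      obtain ⟨D, hD, hμn⟩ := hμ n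
      obtain ⟨ν, hν, h2⟩ := hthin n (p n) (μ n) D hD hμn (1 - a) hε (by linarith) R hR0
      have hq0 : 0 ≤ p n * (1 / (R : ℝ)) ^ (s + 1) := mul_nonneg (hp n).1.le (by positivity)
      have hq1 : p n * (1 / (R : ℝ)) ^ (s + 1) ≤ 1 := by
        have : (1 / (R : ℝ)) ^ (s + 1) ≤ 1 := by
          apply pow_le_one₀ (by positivity)
          rw [div_le_one hR0']
          exact_mod_cast hR0
        calc p n * (1 / (R : ℝ)) ^ (s + 1) ≤ 1 * 1 :=
              mul_le_mul (hp n).2 this (by positivity) zero_le_one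
          _ = 1 := one_mul 1
      have hmem : p n * (1 / (R : ℝ)) ^ (s + 1) ∈ T n :=
        ⟨hq0, hq1, ν, ⟨D, hD, hν⟩, by linarith⟩
      have h3 := le_csSup (hbdd n) hmem
      have hUn : U n = sSup (T n) := by rw [hU]; simp only; rw [if_pos hn]
      rw [div_lt_iff₀ (hp n).1, hUn] at hl
      linarith [mul_comm (p n) ((1 / (R : ℝ)) ^ (s + 1))]
    · intro a ha
      exact Eventually.of_forall (fun n => lt_of_le_of_lt (prob_le_one (hμ n) _) ha)
  · intro p hp hlim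
    obtain ⟨μ, hμ, hlimμ⟩ := choose_seq (fun n => (Slot n → Bool) → ℝ)
      (fun n μ => Good (C n) (p n) μ)
      (fun n μ => 1 - prob μ (P n)) (fun n => ⟨_, good_ber (hC n) (hp n).1 (hp n).2⟩)
      (fun n μ h => by linarith [prob_nonneg h (P n)]) (by
        intro ε hε
        obtain ⟨R, hR⟩ := exists_nat_gt (max 0 (Real.log (1 / (1 / 2)) / ε))
        have hR0 : 0 < R := by
          have : (0 : ℝ) < R := lt_of_le_of_lt (le_max_left _ _) hR
          exact_mod_cast this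
        have hR0' : (0 : ℝ) < R := by exact_mod_cast hR0
        have hRl : Real.log (1 / (1 / 2)) / R ≤ ε := by
          rw [div_le_iff₀ hR0']
          have := lt_of_le_of_lt (le_max_right _ _) hR
          rw [div_lt_iff₀ hε] at this
          linarith [mul_comm (R : ℝ) ε]
        have hK : (0 : ℝ) < (1 / (R : ℝ)) ^ (s + 1) := by positivity
        have hlim' := (tendsto_order.1 hlim).2 (1 / 2 * (1 / (R : ℝ)) ^ (s + 1)) (by positivity)
        filter_upwards [hpos, hlim'] with n ⟨hne, hn⟩ hl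
        have hUn : U n = sSup (T n) := by rw [hU]; simp only; rw [if_pos hn]
        obtain ⟨q, hqT, hq⟩ := exists_lt_of_lt_csSup hne
          (show 1 / 2 * sSup (T n) < sSup (T n) by linarith)
        obtain ⟨q0, q1, μ, ⟨D, hD, hμ⟩, hh⟩ := hqT
        obtain ⟨ν, hν, h2⟩ := hthin n q μ D hD hμ (1 / 2) (by norm_num) hh R hR0
        have hle : p n ≤ q * (1 / (R : ℝ)) ^ (s + 1) := by
          rw [div_lt_iff₀ (hUpos n), hUn] at hl
          have : 1 / 2 * sSup (T n) * (1 / (R : ℝ)) ^ (s + 1) ≤ q * (1 / (R : ℝ)) ^ (s + 1) :=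
            mul_le_mul_of_nonneg_right hq.le hK.le
          linarith [this, mul_comm (1 / 2 * (1 / (R : ℝ)) ^ (s + 1)) (sSup (T n)),
            show 1 / 2 * (1 / (R : ℝ)) ^ (s + 1) * sSup (T n)
              = 1 / 2 * sSup (T n) * (1 / (R : ℝ)) ^ (s + 1) by ring]
        obtain ⟨ν', hν', hge⟩ := lower (hp n).1 hle hν (fun ω => 1 - ind (P n) ω)
          (fun ω ω' h => by linarith [ind_mono (hmono n) ω' ω h])
        rw [ex_sub, ex_sub, ex_one hν, ex_one hν'] at hge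
        refine ⟨ν', ⟨D, hD, hν'⟩, ?_⟩
        unfold prob at h2 ⊢
        linarith)
    refine ⟨μ, hμ, ?_⟩
    have := hlimμ.const_sub 1
    simpa using this

theorem deg_bot {n : ℕ} (d : ℕ) : Deg d (⊥ : SimpleGraph (Slot n)) := by
  intro e
  have : (⊥ : SimpleGraph (Slot n)).neighborSet e = ∅ := by
    ext x; simp
  rw [this]; simp

end Pool.Agent.V11199.TH
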